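import Pool.Agent.J6H45.WB.H
import Pool.Agent.Helper882.Dirac.Edgar

/-!
# A compact space with weak* separable `C(K)*` whose supremum norm is not Baire measurable

MP_2cbf68_an, Q2: no.  There is a compact Hausdorff space `K` such that the dual of `C(K)` is weak*
separable, but the supremum norm is not measurable for the Baire σ-algebra of the weak topology.

Idea.  `K` is the closure of the union of the supports of the laws of random points
`Z ∈ {0,1}^X`, where `X` is a set of well-founded trees; `Z x` is `1` if an own coin of `x` is `1` and
the values of `Z` at the branches of `x` are in a closed set coded by `x`.  The laws correspond to the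
countably many modifications which set all the coins in a finite union of clopen sets to `0`; they
form a total family of functionals.  The coin of `x` is `1` with probability `1/2` or `1/4`,
according to the membership of a real coded by `x` in a non-measurable set, and the coordinate
function is multiplied by `1` or `2`; a countable family of functionals does not see the difference
on suitable trees, but the norm does.
-/

set_option autoImplicit false

open MeasureTheory TopologicalSpace

namespace Pool.Agent.Results.MP_2cbf68_an.NormNotMeasurable

/-- `Ba(E, w)`: the smallest σ-algebra on the Banach space `E` making every weakly continuous real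
function on `E` measurable. -/
@[instance_reducible]
def weakBaire (E : Type) [NormedAddCommGroup E] [NormedSpace ℝ E] : MeasurableSpace E :=
  ⨆ g : {g : E → ℝ // Continuous fun x : WeakSpace ℝ E => g ((toWeakSpace ℝ E).symm x)},
    MeasurableSpace.comap g.1 (borel ℝ)

/-- Edgar's theorem: `Ba(E, w)` is contained in the σ-algebra generated by the functionals -/
theorem weakBaire_le (E : Type) [NormedAddCommGroup E] [NormedSpace ℝ E] :
    weakBaire E ≤ ⨆ φ : StrongDual ℝ E, MeasurableSpace.comap φ (borel ℝ) := by
  refine iSup_le fun g => ?_
  have h1 : @Continuous E (WeakSpace ℝ E)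
      (⨅ φ : StrongDual ℝ E, TopologicalSpace.induced (⇑φ) inferInstance) _
      (fun x => toWeakSpace ℝ E x) := by
    refine @WeakBilin.continuous_of_continuous_eval E ℝ E (StrongDual ℝ E) _ _ _ _ _ _
      (topDualPairing ℝ E).flip
      (⨅ φ : StrongDual ℝ E, TopologicalSpace.induced (⇑φ) inferInstance) _ fun φ => ?_
    exact continuous_iInf_dom (i := φ) continuous_induced_dom
  have h2 : @Continuous E ℝ
      (⨅ φ : StrongDual ℝ E, TopologicalSpace.induced (⇑φ) inferInstance) _ g.1 :=
    @Continuous.comp E (WeakSpace ℝ E) ℝ
      (⨅ φ : StrongDual ℝ E, TopologicalSpace.induced (⇑φ) inferInstance) _ _ _ _ g.2 h1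
  exact measurable_iff_comap_le.1 (Pool.Agent.Helper882.Dirac.edgar_weak E g.1 h2)

/-- There is a compact Hausdorff space `K` such that the dual of `C(K)` is separable in the weak*
topology, but the supremum norm of `C(K)` is not measurable for the Baire σ-algebra of the weak
topology. -/
theorem result :
    ∃ (K : Type) (_ : TopologicalSpace K) (_ : CompactSpace K) (_ : T2Space K),
      SeparableSpace (WeakDual ℝ C(K, ℝ)) ∧
      ¬ Measurable[weakBaire C(K, ℝ), borel ℝ] (fun f : C(K, ℝ) => ‖f‖) := by
  obtain ⟨S, hS⟩ := Pool.Agent.J6H45.WB.exists_nonmeasurable
  refine ⟨Pool.Agent.J6H45.WB.K S, inferInstance, inferInstance, inferInstance,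
    Pool.Agent.J6H45.WB.separable_dual S, fun h => ?_⟩
  exact Pool.Agent.J6H45.WB.not_measurable S hS (h.mono (weakBaire_le _) le_rfl)

end Pool.Agent.Results.MP_2cbf68_an.NormNotMeasurable
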